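import Pool.Agent.MP_114209_co.Mg.H79_Main

namespace Pool.Agent.Results.MP_114209_co.Acyclic

open Pool.Agent.MP_114209_co.H87

/-- Every finite digraph without directed cycles is maderian for the minimum out-degree. -/
theorem result {V : Type} [Fintype V] (F : Digraph V)
    (hF : ∀ a, ¬ Relation.TransGen F.Adj a a) : Maderian F :=
  Pool.Agent.MP_114209_co.H79.maderian_acyclic F hF

end Pool.Agent.Results.MP_114209_co.Acyclic
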