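import Mathlib
import Pool.Agent.MP_114209_co.InDom

set_option autoImplicit false

namespace Pool.Agent.Results.MP_114209_co.InDomFalse

/-- For every `d` there is a finite nonempty oriented graph of minimum out-degree at least `d`
with no proper vertex subset `X` such that every vertex outside `X` has an out-neighbour in `X`
and at least two out-neighbours outside `X`. -/
theorem result :
    ∀ d : ℕ, ∃ (W : Type) (_ : Fintype W) (_ : Nonempty W) (D : Digraph W),
      (∀ w, ¬ D.Adj w w) ∧ (∀ u v, D.Adj u v → ¬ D.Adj v u) ∧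
      (∀ w, d ≤ Nat.card {u // D.Adj w u}) ∧
      ¬ ∃ X : Set W, X ≠ Set.univ ∧ (∀ v, v ∉ X → ∃ u ∈ X, D.Adj v u) ∧
        (∀ v, v ∉ X → 2 ≤ Nat.card {u // u ∉ X ∧ D.Adj v u}) := by
  intro d
  refine ⟨Pool.Agent.MP_114209_co.InDom.Vx d, inferInstance, inferInstance,
    Pool.Agent.MP_114209_co.InDom.G d, ?_, Pool.Agent.MP_114209_co.InDom.asymm d,
    Pool.Agent.MP_114209_co.InDom.outdeg d, ?_⟩
  · intro w hw
    exact Pool.Agent.MP_114209_co.InDom.asymm d w w hw hw
  · rintro ⟨X, hX, hdom, hdeg⟩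
    exact hX (Pool.Agent.MP_114209_co.InDom.no_good_set d X hdom hdeg)

end Pool.Agent.Results.MP_114209_co.InDomFalse
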